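import Pool.Agent.H525.EX.Stm9
import Pool.Agent.H928.EX.BRG
import Pool.Agent.H356.EX.BRU

/-!
# Project EX (helper525), task BRGB: general coefficient, prescribed second coefficient (helper720)
-/

set_option autoImplicit false
set_option linter.unusedSectionVars false

namespace Pool.Agent.H720.EX

open Polynomial
open Pool.Agent.H525.QF Pool.Agent.H525.EX Pool.Agent.H928.EX
open scoped Classical

section

variable {K : Type} [Field K] [Fintype K] [CharP K 2]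

/-- Counting along an injective map of a finite set into a finite set which is not larger. -/
theorem card_tr {A B : Type} (S : Finset A) (R : Finset B) (Φ : A → B)
    (hinj : Function.Injective Φ) (hmap : ∀ v ∈ S, Φ v ∈ R) (hc : R.card ≤ S.card)
    (p : A → Prop) (q : B → Prop) [DecidablePred p] [DecidablePred q]
    (h : ∀ v ∈ S, (p v ↔ q (Φ v))) :
    (S.filter p).card = (R.filter q).card := by
  have h1 : S.image Φ = R := by
    apply Finset.eq_of_subset_of_card_le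
    · intro w hw
      rw [Finset.mem_image] at hw
      obtain ⟨v, hv, rfl⟩ := hw
      exact hmap v hv
    · rw [Finset.card_image_of_injective _ hinj]
      exact hc
  have h2 : R.filter q = (S.filter p).image Φ := by
    ext w
    rw [Finset.mem_filter, Finset.mem_image, ← h1, Finset.mem_image]
    constructor
    · rintro ⟨⟨v, hv, rfl⟩, hq⟩
      exact ⟨v, Finset.mem_filter.2 ⟨hv, (h v hv).2 hq⟩, rfl⟩
    · rintro ⟨v, hv, rfl⟩
      rw [Finset.mem_filter] at hv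
      exact ⟨⟨v, hv.1, rfl⟩, (h v hv.1).1 hv.2⟩
  rw [h2, Finset.card_image_of_injective _ hinj]

theorem T_even' (v : K[X] × K[X]) (j : ℕ) : (T v).coeff (2 * j) = v.1.coeff j ^ 2 :=
  Pool.Agent.H356.EX.T_even v j

theorem T_odd' (v : K[X] × K[X]) (j : ℕ) : (T v).coeff (2 * j + 1) = v.2.coeff j ^ 2 :=
  Pool.Agent.H356.EX.T_odd v j

theorem sq_iff {a b : K} : a ^ 2 = b ^ 2 ↔ a = b :=
  ⟨Pool.Agent.H356.EX.sq_inj, fun h => by rw [h]⟩

theorem four_iff {a b : K} : a ^ 4 = b ^ 4 ↔ a = b := by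
  have e : ∀ c : K, c ^ 4 = (c ^ 2) ^ 2 := fun c => by ring
  rw [e, e, sq_iff, sq_iff]

theorem two_zero : (2 : K) = 0 := CharTwo.two_eq_zero

theorem key1 (β b k l μ γ z B a t : K) (hb : b ≠ 0) (hβ : β * b = 1) (hl : l ^ 4 = b)
    (hμ : μ ^ 4 = γ) (h : k * l * t = 1) (ha : a ^ 4 = β * (B ^ 2 + γ)) :
    z ^ 2 = B ↔ k * ((z + μ) * t) = a := by
  have hβ0 : β ≠ 0 := by
    intro h0
    rw [h0, zero_mul] at hβ
    exact zero_ne_one hβ
  have e1 : (k * t) ^ 4 * b = β * b := by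
    calc (k * t) ^ 4 * b = (k * t) ^ 4 * l ^ 4 := by rw [hl]
      _ = (k * l * t) ^ 4 := by ring
      _ = β * b := by rw [h, one_pow, hβ]
  have e2 : (k * t) ^ 4 = β := mul_right_cancel₀ hb e1
  have e3 : (k * ((z + μ) * t)) ^ 4 = β * (z ^ 4 + γ) := by
    have h2 : (2 : K) = 0 := two_zero
    calc (k * ((z + μ) * t)) ^ 4 = (k * t) ^ 4 * (z + μ) ^ 4 := by ring
      _ = β * (z ^ 4 + γ) := by
        rw [e2, ← hμ]
        linear_combination β * (2 * z ^ 3 * μ + 3 * z ^ 2 * μ ^ 2 + 2 * z * μ ^ 3) * h2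
  rw [← four_iff (a := k * ((z + μ) * t)), e3, ha]
  constructor
  · intro h1
    rw [← h1]
    ring
  · intro h1
    have h3 := mul_left_cancel₀ hβ0 h1
    have h4 : z ^ 4 = B ^ 2 := add_right_cancel h3
    apply sq_iff.1
    rw [← h4]
    ring

theorem key0 (β b k l z B a t : K) (hb : b ≠ 0) (hβ : β * b = 1) (hl : l ^ 4 = b)
    (h : k * (t * b) = 1) (ha : a ^ 4 = β ^ 3 * B ^ 2) :
    z ^ 2 = B ↔ k * l * (z * t) = a := by
  have hβ0 : β ≠ 0 := by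
    intro h0
    rw [h0, zero_mul] at hβ
    exact zero_ne_one hβ
  have e1 : k * t = β := by
    apply mul_right_cancel₀ hb
    rw [hβ, mul_assoc, h]
  have e3 : (k * l * (z * t)) ^ 4 = β ^ 3 * z ^ 4 := by
    calc (k * l * (z * t)) ^ 4 = (k * t) ^ 4 * l ^ 4 * z ^ 4 := by ring
      _ = β ^ 3 * z ^ 4 * (β * b) := by
        rw [e1, hl]
        ring
      _ = β ^ 3 * z ^ 4 := by rw [hβ, mul_one]
  rw [← four_iff (a := k * l * (z * t)), e3, ha]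
  constructor
  · intro h1
    rw [← h1]
    ring
  · intro h1
    have h4 : z ^ 4 = B ^ 2 := mul_left_cancel₀ (pow_ne_zero 3 hβ0) h1
    apply sq_iff.1
    rw [← h4]
    ring

theorem sg_coeff (b : K) (hb : b ≠ 0) (p : K[X]) (n : ℕ) :
    (sg b hb p).coeff n = p.coeff n * b ^ n := by
  rw [sg_apply, comp_C_mul_X_coeff]

theorem stepc1 (α γ b : K) (m : ℕ) :
    pc K (C α * X ^ 2 + X + C γ) (2 * m + 1) b =
      (((lt K (m + 1)) ×ˢ (mon K m)).filter (fun v : K[X] × K[X] => v.1.coeff m ^ 2 = b ∧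
        Irreducible (v.1 ^ 4 + (C (1 + α) * X ^ 2 + X + C γ) * v.2 ^ 4))).card := by
  rw [card_tr _ (mon K (2 * m + 1)) T T_inj (T_mem1 m) ?_ _
    (fun u : K[X] => u.coeff (2 * m) = b ∧
      Irreducible (u ^ 2 + (C α * X ^ 2 + X + C γ) * (derivative u) ^ 2)) ?_]
  · unfold pc
    rw [← Set.ncard_coe_finset]
    congr 1
    ext u
    simp only [Set.mem_ofPred_eq, Finset.coe_filter, mem_mon, and_assoc, Nat.add_sub_cancel]
  · rw [Finset.card_product, card_lt, card_mon, card_mon, ← pow_add]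
    exact le_of_eq (congrArg _ (by ring))
  · intro v _
    rw [T_val, T_even']

theorem stepc0 (α γ b : K) (m : ℕ) (hm : 1 ≤ m) :
    pc K (C α * X ^ 2 + X + C γ) (2 * m) b =
      (((mon K m) ×ˢ (lt K m)).filter (fun v : K[X] × K[X] => v.2.coeff (m - 1) ^ 2 = b ∧
        Irreducible (v.1 ^ 4 + (C (1 + α) * X ^ 2 + X + C γ) * v.2 ^ 4))).card := by
  rw [card_tr _ (mon K (2 * m)) T T_inj (T_mem0 m) ?_ _
    (fun u : K[X] => u.coeff (2 * m - 1) = b ∧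
      Irreducible (u ^ 2 + (C α * X ^ 2 + X + C γ) * (derivative u) ^ 2)) ?_]
  · unfold pc
    rw [← Set.ncard_coe_finset]
    congr 1
    ext u
    simp only [Set.mem_ofPred_eq, Finset.coe_filter, mem_mon, and_assoc]
  · rw [Finset.card_product, card_lt, card_mon, card_mon, ← pow_add]
    exact le_of_eq (congrArg _ (by ring))
  · intro v _
    rw [T_val, show 2 * m - 1 = 2 * (m - 1) + 1 by omega, T_odd']

theorem sum_ind' (A : Finset (K[X] × K[X])) (f : K[X] × K[X] → K) (c : K) :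
    ∑ v ∈ A, (if f v = c then (1 : ℝ) else 0) = ((A.filter (fun v => f v = c)).card : ℝ) := by
  rw [Finset.sum_boole]

theorem tr1 (β γ : K) (hβ : β ≠ 0) (m : ℕ) (B a : K) (ha : a ^ 4 = β * (B ^ 2 + γ)) :
    (((lt K (m + 1)) ×ˢ (mon K m)).filter (fun v : K[X] × K[X] => v.1.coeff m ^ 2 = B ∧
        Irreducible (v.1 ^ 4 + (C β * X ^ 2 + X + C γ) * v.2 ^ 4))).card =
      (((lt K (m + 1)) ×ˢ (mon K m)).filter (fun v : K[X] × K[X] =>
        Irreducible (F2 v) ∧ v.1.coeff m = a)).card := by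
  have hb : β⁻¹ ≠ 0 := inv_ne_zero hβ
  obtain ⟨μ, hμ⟩ := four_root γ
  obtain ⟨l, hl⟩ := four_root β⁻¹
  have hl0 : l ≠ 0 := by
    intro h
    rw [h] at hl
    apply hb
    rw [← hl]
    exact zero_pow (by norm_num)
  have hbm : β⁻¹ ^ m ≠ 0 := pow_ne_zero m hb
  have hk : (l * β⁻¹ ^ m)⁻¹ ≠ 0 := inv_ne_zero (mul_ne_zero hl0 hbm)
  have hkl : (l * β⁻¹ ^ m)⁻¹ * l * β⁻¹ ^ m = 1 := by
    rw [mul_assoc]
    exact inv_mul_cancel₀ (mul_ne_zero hl0 hbm)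
  refine card_tr _ _ (fun v => Sc β⁻¹ hb (l * β⁻¹ ^ m)⁻¹ l (Sh μ v))
    ((Sc_inj _ _ _ _ hk hl0).comp (Sh_inj μ))
    (fun v hv => Sc_mem1 _ _ _ hb m hkl _ (Sh_mem1 μ m v hv)) le_rfl _ _ ?_
  intro v hv
  rw [Finset.mem_product, mem_lt, mem_mon] at hv
  obtain ⟨-, h2, h3⟩ := hv
  have h4 : v.2.coeff m = 1 := by
    rw [← h3]
    exact h2.coeff_natDegree
  have h5 : (Sc β⁻¹ hb (l * β⁻¹ ^ m)⁻¹ l (Sh μ v)).1.coeff m =
      (l * β⁻¹ ^ m)⁻¹ * ((v.1.coeff m + μ) * β⁻¹ ^ m) := by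
    show (C (l * β⁻¹ ^ m)⁻¹ * sg β⁻¹ hb (v.1 + C μ * v.2)).coeff m = _
    rw [coeff_C_mul, sg_coeff, coeff_add, coeff_C_mul, h4, mul_one]
  have h6 := Sc_irr β β⁻¹ (l * β⁻¹ ^ m)⁻¹ l hb hk (mul_inv_cancel₀ hβ) hl (Sh μ v)
  rw [Sh_val, hμ] at h6
  show _ ↔ (Irreducible (F2 (Sc β⁻¹ hb (l * β⁻¹ ^ m)⁻¹ l (Sh μ v))) ∧
    (Sc β⁻¹ hb (l * β⁻¹ ^ m)⁻¹ l (Sh μ v)).1.coeff m = a)
  rw [← h6, h5, and_comm,
    key1 β β⁻¹ _ l μ γ (v.1.coeff m) B a _ hb (mul_inv_cancel₀ hβ) hl hμ hkl ha]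

theorem tr0 (β γ : K) (hβ : β ≠ 0) (m : ℕ) (hm : 1 ≤ m) (B a : K)
    (ha : a ^ 4 = β ^ 3 * B ^ 2) :
    (((mon K m) ×ˢ (lt K m)).filter (fun v : K[X] × K[X] => v.2.coeff (m - 1) ^ 2 = B ∧
        Irreducible (v.1 ^ 4 + (C β * X ^ 2 + X + C γ) * v.2 ^ 4))).card =
      (((mon K m) ×ˢ (lt K m)).filter (fun v : K[X] × K[X] =>
        Irreducible (F2 v) ∧ v.2.coeff (m - 1) = a)).card := by
  have hb : β⁻¹ ≠ 0 := inv_ne_zero hβ
  obtain ⟨μ, hμ⟩ := four_root γ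
  obtain ⟨l, hl⟩ := four_root β⁻¹
  have hl0 : l ≠ 0 := by
    intro h
    rw [h] at hl
    apply hb
    rw [← hl]
    exact zero_pow (by norm_num)
  have hbm : β⁻¹ ^ m ≠ 0 := pow_ne_zero m hb
  have hk : (β⁻¹ ^ m)⁻¹ ≠ 0 := inv_ne_zero hbm
  have hkl : (β⁻¹ ^ m)⁻¹ * β⁻¹ ^ m = 1 := inv_mul_cancel₀ hbm
  have hkt : (β⁻¹ ^ m)⁻¹ * (β⁻¹ ^ (m - 1) * β⁻¹) = 1 := by
    rw [← pow_succ, Nat.sub_add_cancel hm]
    exact hkl
  refine card_tr _ _ (fun v => Sc β⁻¹ hb (β⁻¹ ^ m)⁻¹ l (Sh μ v))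
    ((Sc_inj _ _ _ _ hk hl0).comp (Sh_inj μ))
    (fun v hv => Sc_mem0 _ _ _ hb m hkl _ (Sh_mem0 μ m v hv)) le_rfl _ _ ?_
  intro v _
  have h5 : (Sc β⁻¹ hb (β⁻¹ ^ m)⁻¹ l (Sh μ v)).2.coeff (m - 1) =
      (β⁻¹ ^ m)⁻¹ * l * (v.2.coeff (m - 1) * β⁻¹ ^ (m - 1)) := by
    show (C ((β⁻¹ ^ m)⁻¹ * l) * sg β⁻¹ hb v.2).coeff (m - 1) = _
    rw [coeff_C_mul, sg_coeff]
  have h6 := Sc_irr β β⁻¹ (β⁻¹ ^ m)⁻¹ l hb hk (mul_inv_cancel₀ hβ) hl (Sh μ v)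
  rw [Sh_val, hμ] at h6
  show _ ↔ (Irreducible (F2 (Sc β⁻¹ hb (β⁻¹ ^ m)⁻¹ l (Sh μ v))) ∧
    (Sc β⁻¹ hb (β⁻¹ ^ m)⁻¹ l (Sh μ v)).2.coeff (m - 1) = a)
  rw [← h6, h5, and_comm,
    key0 β β⁻¹ _ l (v.2.coeff (m - 1)) B a _ hb (mul_inv_cancel₀ hβ) hl hkt ha]

end

/-- **BRGB.** -/
theorem t_brgb : S_brgb := by
  intro K _ _ _ α γ hα
  have hβ : (1 : K) + α ≠ 0 := one_add_ne_zero α hα
  refine ⟨fun m b a ha => ?_, fun m b a hm ha => ?_⟩
  · unfold p1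
    rw [sum_ind' _ (fun v => v.1.coeff m) a, Finset.filter_filter, stepc1,
      tr1 (1 + α) γ hβ m b a ha]
  · unfold p0
    rw [sum_ind' _ (fun v => v.2.coeff (m - 1)) a, Finset.filter_filter, stepc0 _ _ _ m hm,
      tr0 (1 + α) γ hβ m hm b a ha]

end Pool.Agent.H720.EX
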