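import Mathlib

/-!
Project EX, job GP, part 1: the relations between `a`, `b` over `L` are the multiples of one
polynomial.
-/

set_option autoImplicit false

namespace Pool.Agent.H720.EX

open Polynomial nonZeroDivisors

section gen

variable {E L : Type} [Field E] [Field L] [Algebra L E]

/-- the value at `a` (outer variable), `b` (inner variable) -/
noncomputable def ev (L : Type) [Field L] [Algebra L E] (a b : E) : L[X][X] →+* E :=
  eval₂RingHom ((aeval b : L[X] →ₐ[L] E) : L[X] →+* E) a

open scoped IntermediateField.algebraAdjoinAdjoin in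
theorem exists_rel {a b : E} (ha : IsAlgebraic (IntermediateField.adjoin L {b}) a) :
    ∃ f : L[X][X], f ≠ 0 ∧ ev L a b f = 0 := by
  have h1 : IsAlgebraic (Algebra.adjoin L {b}) a := by
    exact (IsFractionRing.isAlgebraic_iff (Algebra.adjoin L {b})
      (IntermediateField.adjoin L {b}) E).2 ha
  obtain ⟨g, hg0, hg⟩ := h1
  have hlift : ∃ f : L[X][X], f.map ((aeval b : L[X] →ₐ[L] E) : L[X] →+* E) =
      g.map (algebraMap (Algebra.adjoin L {b}) E) := by
    have h2 : g.map (algebraMap (Algebra.adjoin L {b}) E) ∈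
        lifts ((aeval b : L[X] →ₐ[L] E) : L[X] →+* E) := by
      rw [lifts_iff_coeff_lifts]
      intro n
      rw [coeff_map]
      have h3 : ((g.coeff n : Algebra.adjoin L {b}) : E) ∈ Algebra.adjoin L {b} := (g.coeff n).2
      have h4 : ∀ x ∈ Algebra.adjoin L {b}, x ∈ Set.range ((aeval b : L[X] →ₐ[L] E) :
          L[X] →+* E) := by
        intro x hx
        rw [Algebra.adjoin_singleton_eq_range_aeval] at hx
        exact hx
      exact h4 _ h3
    exact (mem_lifts _).1 h2
  obtain ⟨f, hf⟩ := hlift
  refine ⟨f, ?_, ?_⟩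
  · rintro rfl
    rw [Polynomial.map_zero] at hf
    apply hg0
    apply map_injective (algebraMap (Algebra.adjoin L {b}) E) Subtype.val_injective
    rw [Polynomial.map_zero, ← hf]
  · have h2 : ev L a b f = (f.map ((aeval b : L[X] →ₐ[L] E) : L[X] →+* E)).eval a := by
      rw [eval_map]
      rfl
    rw [h2, hf, eval_map]
    exact hg

/-- the generator of the relations -/
theorem gen {a b : E} (hb : Transcendental L b)
    (ha : IsAlgebraic (IntermediateField.adjoin L {b}) a) :
    ∃ G : L[X][X], ev L a b G = 0 ∧ ∀ f : L[X][X], ev L a b f = 0 → G ∣ f := by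
  classical
  obtain ⟨f₀, hf0, hf00⟩ := exists_rel ha
  obtain ⟨φ, hφ⟩ : ∃ φ : L[X] →+* E, φ = ((aeval b : L[X] →ₐ[L] E) : L[X] →+* E) := ⟨_, rfl⟩
  have hinj : Function.Injective φ := by
    rw [hφ]
    exact transcendental_iff_injective.1 hb
  have hev : ∀ f : L[X][X], ev L a b f = f.eval₂ φ a := fun f => by rw [hφ]; rfl
  let _ : Algebra L[X] E := φ.toAlgebra
  let K := FractionRing L[X]
  let _ : Algebra K E := (IsFractionRing.lift (K := K) (g := φ) hinj).toAlgebra
  have htow : IsScalarTower L[X] K E := by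
    refine IsScalarTower.of_algebraMap_eq fun x => ?_
    exact (IsFractionRing.lift_algebraMap hinj x).symm
  have hmap : ∀ f : L[X][X], aeval a (f.map (algebraMap L[X] K)) = ev L a b f := by
    intro f
    rw [aeval_map_algebraMap, hev]
    rfl
  have hint : IsIntegral K a := by
    rw [← isAlgebraic_iff_isIntegral]
    refine ⟨f₀.map (algebraMap L[X] K), ?_, ?_⟩
    · intro h
      apply hf0
      apply map_injective (algebraMap L[X] K) (IsFractionRing.injective _ _)
      rw [h, Polynomial.map_zero]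
    · rw [hmap, hf00]
  let _ : NormalizedGCDMonoid L[X] := Nonempty.some inferInstance
  obtain ⟨c, hc0, hc⟩ := IsLocalization.integerNormalization_spec L[X]⁰ (minpoly K a)
  obtain ⟨G₁, hG₁⟩ : ∃ G₁ : L[X][X],
    G₁ = IsLocalization.integerNormalization L[X]⁰ (minpoly K a) := ⟨_, rfl⟩
  rw [← hG₁] at hc
  have hcne : c ≠ 0 := nonZeroDivisors.ne_zero hc0
  have hm0 : minpoly K a ≠ 0 := minpoly.ne_zero hint
  have hcne' : algebraMap L[X] K c ≠ 0 := by
    intro h
    apply hcne
    apply IsFractionRing.injective L[X] K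
    rw [h, map_zero]
  have hG₁0 : G₁ ≠ 0 := by
    rintro rfl
    rw [Polynomial.map_zero, Algebra.smul_def, Polynomial.algebraMap_apply] at hc
    have h1 := mul_eq_zero.1 hc.symm
    rcases h1 with h1 | h1
    · exact hcne' (C_eq_zero.1 h1)
    · exact hm0 h1
  have hcont : algebraMap L[X] K G₁.content ≠ 0 := by
    intro h
    apply hG₁0
    rw [← content_eq_zero_iff]
    apply IsFractionRing.injective L[X] K
    rw [h, map_zero]
  -- the equation
  have heq : C (algebraMap L[X] K G₁.content) * G₁.primPart.map (algebraMap L[X] K) =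
      C (algebraMap L[X] K c) * minpoly K a := by
    have h1 := congrArg (Polynomial.map (algebraMap L[X] K)) G₁.eq_C_content_mul_primPart
    rw [hc, Polynomial.map_mul, map_C, Algebra.smul_def, Polynomial.algebraMap_apply] at h1
    exact h1.symm
  refine ⟨G₁.primPart, ?_, ?_⟩
  · have h1 := congrArg (aeval a) heq
    rw [map_mul, map_mul, minpoly.aeval, mul_zero, aeval_C, hmap] at h1
    refine (mul_eq_zero.1 h1).resolve_left ?_
    intro h2
    exact hcont ((map_eq_zero (algebraMap K E)).1 h2)
  · intro f hf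
    apply (isPrimitive_primPart G₁).dvd_of_fraction_map_dvd_fraction_map (K := K)
    have h1 : minpoly K a ∣ f.map (algebraMap L[X] K) := minpoly.dvd K a (by rw [hmap, hf])
    refine dvd_trans ?_ h1
    refine ⟨C ((algebraMap L[X] K c)⁻¹ * algebraMap L[X] K G₁.content), ?_⟩
    have h2 : minpoly K a = C (algebraMap L[X] K c)⁻¹ *
        (C (algebraMap L[X] K c) * minpoly K a) := by
      rw [← mul_assoc, ← C_mul, inv_mul_cancel₀ hcne', C_1, one_mul]
    rw [h2, ← heq, C_mul]
    ring

/-- the generator has two exponents in the outer variable -/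
theorem two_exp {a b : E} (ha0 : a ≠ 0) (hb : Transcendental L b) {G : L[X][X]} (hG0 : G ≠ 0)
    (hG : ev L a b G = 0) : ∃ i j, i ≠ j ∧ G.coeff i ≠ 0 ∧ G.coeff j ≠ 0 := by
  have hinj : Function.Injective (aeval b : L[X] →ₐ[L] E) := transcendental_iff_injective.1 hb
  refine ⟨G.natDegree, ?_⟩
  by_contra hcon
  push Not at hcon
  have h1 : G.coeff G.natDegree ≠ 0 := by
    rw [coeff_natDegree, leadingCoeff_ne_zero]
    exact hG0
  have h2 : G = monomial G.natDegree (G.coeff G.natDegree) := by
    ext1 n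
    rw [coeff_monomial]
    by_cases hn : G.natDegree = n
    · rw [if_pos hn, hn]
    · rw [if_neg hn]
      exact hcon n hn h1
  rw [h2] at hG
  have h3 : ev L a b (monomial G.natDegree (G.coeff G.natDegree)) =
      aeval b (G.coeff G.natDegree) * a ^ G.natDegree := eval₂_monomial _ _
  rw [h3] at hG
  rcases mul_eq_zero.1 hG with h4 | h4
  · apply h1
    apply hinj
    rw [h4, map_zero]
  · exact ha0 (pow_eq_zero_iff (by
      intro h5
      rw [h5, pow_zero] at h4
      exact one_ne_zero h4) |>.1 h4)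

end gen

/-! ### double polynomials -/

section dbl

/-- a polynomial in two variables as a sum of monomials -/
theorem sum_two {R : Type} [CommRing R] (P : R[X][X]) :
    ∃ N : Finset (ℕ × ℕ), (∀ e, e ∈ N ↔ (P.coeff e.1).coeff e.2 ≠ 0) ∧
      P = ∑ e ∈ N, monomial e.1 (monomial e.2 ((P.coeff e.1).coeff e.2)) := by
  classical
  obtain ⟨N, hN⟩ : ∃ N : Finset (ℕ × ℕ), N = P.support.biUnion fun i =>
      (P.coeff i).support.image fun j => (i, j) := ⟨_, rfl⟩
  have hmem : ∀ e, e ∈ N ↔ (P.coeff e.1).coeff e.2 ≠ 0 := by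
    rintro ⟨i, j⟩
    rw [hN, Finset.mem_biUnion]
    simp only [Finset.mem_image, mem_support_iff, Prod.mk.injEq]
    constructor
    · rintro ⟨i', -, j', hj', rfl, rfl⟩
      exact hj'
    · intro h
      refine ⟨i, ?_, j, h, rfl, rfl⟩
      intro h0
      rw [h0, coeff_zero] at h
      exact h rfl
  refine ⟨N, hmem, ?_⟩
  ext i j
  rw [finsetSum_coeff, finsetSum_coeff]
  have h1 : ∀ e : ℕ × ℕ, ((monomial e.1 (monomial e.2 ((P.coeff e.1).coeff e.2)) : R[X][X]).coeff
      i).coeff j = if e = (i, j) then (P.coeff i).coeff j else 0 := by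
    rintro ⟨i', j'⟩
    rw [coeff_monomial]
    by_cases hi : i' = i
    · subst hi
      rw [if_pos rfl, coeff_monomial]
      by_cases hj : j' = j
      · subst hj
        rw [if_pos rfl, if_pos rfl]
      · rw [if_neg hj, if_neg]
        intro h
        exact hj (congrArg Prod.snd h)
    · rw [if_neg hi, coeff_zero, if_neg]
      intro h
      exact hi (congrArg Prod.fst h)
  rw [Finset.sum_congr rfl fun e _ => h1 e, Finset.sum_ite_eq']
  split_ifs with h
  · rfl
  · rw [hmem] at h
    push Not at h
    exact h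

variable {R S : Type} [CommRing R] [CommRing S]

/-- the coefficients -/
noncomputable def bb (e : R →+* S) : R[X][X] →+* S[X][X] := mapRingHom (mapRingHom e)

theorem bb_coeff (e : R →+* S) (P : R[X][X]) (i j : ℕ) :
    ((bb e P).coeff i).coeff j = e ((P.coeff i).coeff j) := by
  unfold bb
  rw [coe_mapRingHom, coeff_map, coe_mapRingHom, coeff_map]

theorem bb_lift (e : R →+* S) (P : S[X][X]) (h : ∀ i j, ∃ x, e x = (P.coeff i).coeff j) :
    ∃ P' : R[X][X], bb e P' = P := by
  have h1 : P ∈ lifts (mapRingHom e) := by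
    rw [lifts_iff_coeff_lifts]
    intro i
    have h2 : P.coeff i ∈ lifts e := by
      rw [lifts_iff_coeff_lifts]
      intro j
      exact h i j
    obtain ⟨q, hq⟩ := (mem_lifts _).1 h2
    exact ⟨q, hq⟩
  exact (mem_lifts _).1 h1

theorem bb_zero {T : Type} [CommRing T] (e₁ : R →+* S) (e₂ : R →+* T)
    (h : ∀ x, e₁ x = 0 → e₂ x = 0) {P : R[X][X]} (hP : bb e₁ P = 0) : bb e₂ P = 0 := by
  ext i j
  rw [bb_coeff, coeff_zero, coeff_zero]
  apply h
  rw [← bb_coeff, hP, coeff_zero, coeff_zero]

/-- evaluation -/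
noncomputable def e2 (A B : R) : R[X][X] →+* R := eval₂RingHom (evalRingHom B) A

theorem e2_monomial (A B : R) (i j : ℕ) (c : R) :
    e2 A B (monomial i (monomial j c)) = c * B ^ j * A ^ i := by
  unfold e2
  rw [coe_eval₂RingHom, eval₂_monomial, coe_evalRingHom, eval_monomial]

end dbl

end Pool.Agent.H720.EX
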