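import Pool.Agent.H664.EX.Stm
import Pool.Agent.H720.EX.GpA

/-!
Project EX, job GP.
-/

set_option autoImplicit false

namespace Pool.Agent.H720.EX

open Polynomial Pool.Agent.Q72.EG Pool.Agent.H664.EX

section fx

variable {σ : Type}

/-- the polynomial in two variables with given values of the variables `σ` -/
noncomputable def fx {R : Type} [CommRing R] (c : ℂ →+* R) (x : σ → R) :
    MvPolynomial (σ ⊕ Fin 2) ℂ →+* R[X][X] :=
  MvPolynomial.eval₂Hom ((C : R[X] →+* R[X][X]).comp ((C : R →+* R[X]).comp c))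
    (Sum.elim (fun s => C (C (x s))) ![X, C X])

theorem fx_C {R : Type} [CommRing R] (c : ℂ →+* R) (x : σ → R) (z : ℂ) :
    fx c x (MvPolynomial.C z) = C (C (c z)) := by
  unfold fx
  rw [MvPolynomial.coe_eval₂Hom, MvPolynomial.eval₂_C]
  rfl

theorem fx_X {R : Type} [CommRing R] (c : ℂ →+* R) (x : σ → R) (i : σ ⊕ Fin 2) :
    fx c x (MvPolynomial.X i) = (Sum.elim (fun s => C (C (x s))) ![X, C X] :
      σ ⊕ Fin 2 → R[X][X]) i := by
  unfold fx
  rw [MvPolynomial.coe_eval₂Hom, MvPolynomial.eval₂_X]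

theorem bb_fx {R S : Type} [CommRing R] [CommRing S] (e : R →+* S) (c : ℂ →+* R) (x : σ → R)
    (f : MvPolynomial (σ ⊕ Fin 2) ℂ) : bb e (fx c x f) = fx (e.comp c) (fun s => e (x s)) f := by
  have h : (bb e).comp (fx c x) = fx (e.comp c) (fun s => e (x s)) := by
    apply MvPolynomial.ringHom_ext
    · intro z
      rw [RingHom.comp_apply, fx_C, fx_C]
      simp [bb]
    · intro i
      rw [RingHom.comp_apply, fx_X, fx_X]
      rcases i with s | i
      · simp [bb]
      · fin_cases i <;> simp [bb]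
  exact RingHom.congr_fun h f

theorem e2_fx (p : σ → ℂ) (A B : ℂ) (f : MvPolynomial (σ ⊕ Fin 2) ℂ) :
    e2 A B (fx (RingHom.id ℂ) p f) = MvPolynomial.eval (Sum.elim p ![A, B]) f := by
  have h : (e2 A B).comp (fx (RingHom.id ℂ) p) = MvPolynomial.eval (Sum.elim p ![A, B]) := by
    apply MvPolynomial.ringHom_ext
    · intro z
      rw [RingHom.comp_apply, fx_C, MvPolynomial.eval_C]
      simp [e2]
    · intro i
      rw [RingHom.comp_apply, fx_X, MvPolynomial.eval_X]
      rcases i with s | i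
      · simp [e2]
      · fin_cases i <;> simp [e2]
  exact RingHom.congr_fun h f

theorem ev_fx {E : Type} [Field E] [Algebra ℂ E] (L : IntermediateField ℂ E) (x : σ → L)
    (a b : E) (f : MvPolynomial (σ ⊕ Fin 2) ℂ) :
    ev L a b (fx (algebraMap ℂ L) x f) =
      MvPolynomial.aeval (Sum.elim (fun s => (x s : E)) ![a, b]) f := by
  have h : (ev L a b).comp (fx (algebraMap ℂ L) x) =
      ((MvPolynomial.aeval (Sum.elim (fun s => (x s : E)) ![a, b]) :
        MvPolynomial (σ ⊕ Fin 2) ℂ →ₐ[ℂ] E) : MvPolynomial (σ ⊕ Fin 2) ℂ →+* E) := by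
    apply MvPolynomial.ringHom_ext
    · intro z
      rw [RingHom.comp_apply, fx_C]
      simp only [ev, coe_eval₂RingHom, eval₂_C, RingHom.coe_coe, aeval_C, MvPolynomial.aeval_C]
      rfl
    · intro i
      rw [RingHom.comp_apply, fx_X]
      rcases i with s | i
      · simp only [ev, coe_eval₂RingHom, Sum.elim_inl, eval₂_C, RingHom.coe_coe, aeval_C,
          MvPolynomial.aeval_X]
        rfl
      · fin_cases i <;> simp [ev]
  exact RingHom.congr_fun h f

end fx

theorem gp : S_gp := by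
  classical
  intro E _ _ L σ _ ξ a b hξ ha0 hb ha
  obtain ⟨G, hG, hGdvd⟩ := gen hb ha
  obtain ⟨f₀, hf0, hf00⟩ := exists_rel ha
  have hG0 : G ≠ 0 := by
    rintro rfl
    exact hf0 (zero_dvd_iff.1 (hGdvd f₀ hf00))
  obtain ⟨i₁, i₂, hi12, hi1, hi2⟩ := two_exp ha0 hb hG0 hG
  obtain ⟨N, hN, hGsum⟩ := sum_two G
  obtain ⟨x, hx⟩ : ∃ x : σ → L, x = fun s => ⟨ξ s, hξ s⟩ := ⟨_, rfl⟩
  have hxξ : (fun s => (x s : E)) = ξ := by rw [hx]
  -- the ideal of the relations
  obtain ⟨I, hI⟩ : ∃ I : Ideal (MvPolynomial (σ ⊕ Fin 2) ℂ),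
      I = RingHom.ker (MvPolynomial.aeval (Sum.elim ξ ![a, b]) :
        MvPolynomial (σ ⊕ Fin 2) ℂ →ₐ[ℂ] E) := ⟨_, rfl⟩
  obtain ⟨S, hS⟩ : I.FG := IsNoetherian.noetherian I
  have hdiv : ∀ f : MvPolynomial (σ ⊕ Fin 2) ℂ, ∃ h : L[X][X], f ∈ S →
      fx (algebraMap ℂ L) x f = G * h := by
    intro f
    by_cases hf : f ∈ S
    · have h1 : f ∈ I := by
        rw [← hS]
        exact Ideal.subset_span hf
      rw [hI, RingHom.mem_ker] at h1
      obtain ⟨h, hh⟩ := hGdvd (fx (algebraMap ℂ L) x f) (by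
        rw [ev_fx, hxξ]
        exact h1)
      exact ⟨h, fun _ => hh⟩
    · exact ⟨0, fun h => absurd h hf⟩
  choose h hh using hdiv
  -- the coefficients
  obtain ⟨c, hc⟩ : ∃ c : ℕ × ℕ → E, c = fun e => (((G.coeff e.1).coeff e.2 : L) : E) := ⟨_, rfl⟩
  obtain ⟨cf, hcf⟩ : ∃ cf : L[X][X] → Finset E, cf = fun P => P.support.biUnion fun i =>
      (P.coeff i).support.image fun j => (((P.coeff i).coeff j : L) : E) := ⟨_, rfl⟩
  have hcfm : ∀ (P : L[X][X]) (i j : ℕ), (P.coeff i).coeff j ≠ 0 →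
      (((P.coeff i).coeff j : L) : E) ∈ cf P := by
    intro P i j hij
    rw [hcf]
    simp only [Finset.mem_biUnion, Finset.mem_image, mem_support_iff]
    refine ⟨i, ?_, j, hij, rfl⟩
    intro h0
    rw [h0, coeff_zero] at hij
    exact hij rfl
  have hcfL : ∀ (P : L[X][X]), ∀ k ∈ cf P, k ∈ L := by
    intro P k hk
    rw [hcf] at hk
    simp only [Finset.mem_biUnion, Finset.mem_image] at hk
    obtain ⟨i, -, j, -, rfl⟩ := hk
    exact ((P.coeff i).coeff j).2
  refine ⟨N, c, cf G ∪ S.biUnion fun f => cf (h f), ?_, ?_, ?_, ?_⟩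
  · intro k hk
    rw [Finset.mem_union, Finset.mem_biUnion] at hk
    rcases hk with hk | ⟨f, -, hk⟩
    · exact hcfL _ k hk
    · exact hcfL _ k hk
  · intro e he
    rw [hN] at he
    rw [hc]
    refine ⟨fun h0 => he (Subtype.ext h0), Finset.mem_union_left _ (hcfm G e.1 e.2 he)⟩
  · have h3 : ∀ i, G.coeff i ≠ 0 → ∃ j, (i, j) ∈ N := by
      intro i hi
      refine ⟨(G.coeff i).natDegree, ?_⟩
      rw [hN]
      simp only
      rw [coeff_natDegree, Ne, leadingCoeff_eq_zero]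
      exact hi
    obtain ⟨j₁, hj₁⟩ := h3 i₁ hi1
    obtain ⟨j₂, hj₂⟩ := h3 i₂ hi2
    exact ⟨(i₁, j₁), hj₁, (i₂, j₂), hj₂, hi12⟩
  · intro Q' p q A B hQ hpq hz
    -- the two homomorphisms
    obtain ⟨e₁, he₁⟩ : ∃ e₁ : MvPolynomial (σ ⊕ Q') ℂ →+* E,
        e₁ = ((MvPolynomial.aeval (Sum.elim ξ fun k : Q' => (k : E)) :
          MvPolynomial (σ ⊕ Q') ℂ →ₐ[ℂ] E) : MvPolynomial (σ ⊕ Q') ℂ →+* E) := ⟨_, rfl⟩
    obtain ⟨e₂, he₂⟩ : ∃ e₂ : MvPolynomial (σ ⊕ Q') ℂ →+* ℂ,
        e₂ = MvPolynomial.eval (Sum.elim p fun k : Q' => q k) := ⟨_, rfl⟩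
    have hker : ∀ P, e₁ P = 0 → e₂ P = 0 := by
      intro P hP
      rw [he₂]
      rw [he₁] at hP
      exact hpq P hP
    have h1X : ∀ k : Q', e₁ (MvPolynomial.X (Sum.inr k)) = k := by
      intro k
      rw [he₁, RingHom.coe_coe, MvPolynomial.aeval_X, Sum.elim_inr]
    have h2X : ∀ k : Q', e₂ (MvPolynomial.X (Sum.inr k)) = q k := by
      intro k
      rw [he₂, MvPolynomial.eval_X, Sum.elim_inr]
    have hlift : ∀ P : L[X][X], cf P ⊆ Q' → ∃ P' : (MvPolynomial (σ ⊕ Q') ℂ)[X][X],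
        bb e₁ P' = bb (algebraMap L E) P := by
      intro P hP
      apply bb_lift
      intro i j
      rw [bb_coeff]
      by_cases h0 : (P.coeff i).coeff j = 0
      · exact ⟨0, by rw [h0, map_zero, map_zero]⟩
      · exact ⟨MvPolynomial.X (Sum.inr ⟨_, hP (hcfm P i j h0)⟩), by rw [h1X]; rfl⟩
    -- the lift of `G`
    have hcN : ∀ e : ℕ × ℕ, ∃ k : MvPolynomial (σ ⊕ Q') ℂ, e ∈ N → e₁ k = c e ∧ e₂ k = q (c e) := by
      intro e
      by_cases he : e ∈ N
      · have h3 : c e ∈ Q' := by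
          apply hQ
          rw [hc]
          exact Finset.mem_union_left _ (hcfm G e.1 e.2 ((hN e).1 he))
        exact ⟨MvPolynomial.X (Sum.inr ⟨c e, h3⟩), fun _ => ⟨h1X _, h2X _⟩⟩
      · exact ⟨0, fun h => absurd h he⟩
    choose k hk using hcN
    obtain ⟨G', hG'⟩ : ∃ G' : (MvPolynomial (σ ⊕ Q') ℂ)[X][X],
        G' = ∑ e ∈ N, monomial e.1 (monomial e.2 (k e)) := ⟨_, rfl⟩
    have hbm : ∀ {R T : Type} [CommRing R] [CommRing T] (u : R →+* T) (i j : ℕ) (z : R),
        bb u (monomial i (monomial j z)) = monomial i (monomial j (u z)) := by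
      intro R T _ _ u i j z
      unfold bb
      rw [coe_mapRingHom, map_monomial, coe_mapRingHom, map_monomial]
    have hG1 : bb e₁ G' = bb (algebraMap L E) G := by
      rw [hG', map_sum]
      conv_rhs => rw [hGsum, map_sum]
      refine Finset.sum_congr rfl fun e he => ?_
      rw [hbm, hbm, (hk e he).1, hc]
      rfl
    have hG2 : e2 A B (bb e₂ G') = 0 := by
      rw [hG', map_sum, map_sum, ← hz]
      refine Finset.sum_congr rfl fun e he => ?_
      rw [hbm, e2_monomial, (hk e he).2]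
      ring
    -- the generators of the ideal
    have hgen : ∀ f ∈ S, MvPolynomial.eval (Sum.elim p ![A, B]) f = 0 := by
      intro f hf
      obtain ⟨h', hh'⟩ := hlift (h f) (by
        refine subset_trans ?_ hQ
        refine subset_trans ?_ Finset.subset_union_right
        exact Finset.subset_biUnion_of_mem (fun f => cf (h f)) hf)
      obtain ⟨f', hf'⟩ : ∃ f' : (MvPolynomial (σ ⊕ Q') ℂ)[X][X],
          f' = fx (MvPolynomial.C) (fun s => MvPolynomial.X (Sum.inl s)) f := ⟨_, rfl⟩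
      have h3 : bb e₁ f' = bb (algebraMap L E) (fx (algebraMap ℂ L) x f) := by
        rw [hf', bb_fx, bb_fx]
        congr 1
        · congr 1
          · ext z
            rw [RingHom.comp_apply, RingHom.comp_apply, he₁, RingHom.coe_coe,
              MvPolynomial.aeval_C]
            rfl
          · funext s
            rw [he₁, RingHom.coe_coe, MvPolynomial.aeval_X, Sum.elim_inl, hx]
            rfl
      have h4 : bb e₁ (f' - G' * h') = 0 := by
        rw [map_sub, map_mul, h3, hG1, hh', ← map_mul, hh f hf, sub_self]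
      have h5 := bb_zero e₁ e₂ hker h4
      rw [map_sub, map_mul, sub_eq_zero] at h5
      have h6 := congrArg (e2 A B) h5
      rw [map_mul, hG2, zero_mul, hf', bb_fx] at h6
      rw [← e2_fx, ← h6]
      congr 2
      · congr 1
        · ext z
          rw [RingHom.comp_apply, he₂, MvPolynomial.eval_C, RingHom.id_apply]
        · funext s
          rw [he₂, MvPolynomial.eval_X, Sum.elim_inl]
    -- all relations
    intro g hg
    have hgI : g ∈ I := by
      rw [hI, RingHom.mem_ker]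
      exact hg
    have hle : I ≤ RingHom.ker (MvPolynomial.eval (Sum.elim p ![A, B]) :
        MvPolynomial (σ ⊕ Fin 2) ℂ →+* ℂ) := by
      rw [← hS, Ideal.span_le]
      intro f hf
      exact hgen f hf
    exact hle hgI

end Pool.Agent.H720.EX
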